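import Pool.Agent.Q170.HD.St

/-!
# Project HD, job CERT: Nullstellensatz certificates modulo `p`
-/

set_option autoImplicit false

open MvPolynomial

namespace Pool.Agent.Q208.HD

open Pool.Agent.Y226
open Pool.Agent.Q170.ZP.Multi (evM certP flat ipol aeval_flat aeval_ipol)
open Pool.Agent.Q170.HD

/-- the subring of the elements of norm at most one -/
def ball {C : Type} [NormedField C] [IsUltrametricDist C] (φ : ℂ →+* C) : Subring ℂ where
  carrier := {x | ‖φ x‖ ≤ 1}
  mul_mem' := by
    intro a b ha hb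
    simp only [Set.mem_ofPred_eq] at ha hb ⊢
    rw [map_mul, norm_mul]
    exact mul_le_one₀ ha (norm_nonneg _) hb
  one_mem' := by simp
  add_mem' := by
    intro a b ha hb
    simp only [Set.mem_ofPred_eq] at ha hb ⊢
    rw [map_add]
    exact (IsUltrametricDist.norm_add_le_max _ _).trans (max_le ha hb)
  zero_mem' := by simp
  neg_mem' := by
    intro a ha
    simp only [Set.mem_ofPred_eq] at ha ⊢
    rw [map_neg, norm_neg]
    exact ha

theorem mem_ball {C : Type} [NormedField C] [IsUltrametricDist C] {φ : ℂ →+* C} {x : ℂ} :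
    x ∈ ball φ ↔ ‖φ x‖ ≤ 1 := Iff.rfl

/-- sums of small elements are small -/
theorem sum_lt {C : Type} [NormedField C] [IsUltrametricDist C] {ι : Type*} (s : Finset ι)
    (f : ι → C) (h : ∀ i ∈ s, ‖f i‖ < 1) : ‖∑ i ∈ s, f i‖ < 1 := by
  classical
  induction s using Finset.induction_on with
  | empty => simp
  | insert a s ha ih =>
    rw [Finset.sum_insert ha]
    refine lt_of_le_of_lt (IsUltrametricDist.norm_add_le_max _ _) (max_lt ?_ ?_)
    · exact h a (Finset.mem_insert_self a s)
    · exact ih (fun i hi => h i (Finset.mem_insert_of_mem hi))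

/-- values of polynomials with coefficients in the ball -/
theorem aeval_ball {C : Type} [NormedField C] [IsUltrametricDist C] {φ : ℂ →+* C} {σ : Type*}
    (P : MvPolynomial σ QA) (hP : ∀ u ∈ P.support, rA (P.coeff u) ∈ ball φ) (z : σ → ℂ)
    (hz : ∀ i, z i ∈ ball φ) : aeval z P ∈ ball φ := by
  rw [aeval_def, eval₂_eq]
  refine sum_mem fun u hu => mul_mem (hP u hu) (prod_mem fun j _ => pow_mem (hz j) _)

theorem norm_int_le {C : Type} [NormedField C] [IsUltrametricDist C] (n : ℤ) : ‖(n : C)‖ ≤ 1 :=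
  IsUltrametricDist.norm_intCast_le_one C n

theorem norm_int_lt {C : Type} [NormedField C] [IsUltrametricDist C] {p : ℕ}
    (hp : ‖(p : C)‖ < 1) {n : ℤ} (h : (p : ℤ) ∣ n) : ‖(n : C)‖ < 1 := by
  obtain ⟨k, rfl⟩ := h
  push_cast
  rw [norm_mul]
  calc ‖(p : C)‖ * ‖(k : C)‖ ≤ ‖(p : C)‖ * 1 :=
        mul_le_mul_of_nonneg_left (norm_int_le k) (norm_nonneg _)
    _ < 1 := by rw [mul_one]; exact hp

theorem norm_int_eq {C : Type} [NormedField C] [IsUltrametricDist C] {p : ℕ} [Fact p.Prime]
    (hp : ‖(p : C)‖ < 1) {n : ℤ} (h : ¬ (p : ℤ) ∣ n) : ‖(n : C)‖ = 1 := by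
  have hpp : Prime (p : ℤ) := Nat.prime_iff_prime_int.mp (Fact.out (p := p.Prime))
  obtain ⟨a, b, hab⟩ := (hpp.coprime_iff_not_dvd).2 h
  apply le_antisymm (norm_int_le n)
  by_contra hc
  rw [not_le] at hc
  have h1 : (1 : C) = (a : C) * (p : C) + (b : C) * (n : C) := by
    have := congrArg (fun z : ℤ => (z : C)) hab
    push_cast at this
    exact this.symm
  have h2 : ‖(1 : C)‖ < 1 := by
    rw [h1]
    refine lt_of_le_of_lt (IsUltrametricDist.norm_add_le_max _ _) (max_lt ?_ ?_)
    · rw [norm_mul]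
      calc ‖(a : C)‖ * ‖(p : C)‖ ≤ 1 * ‖(p : C)‖ :=
            mul_le_mul_of_nonneg_right (norm_int_le a) (norm_nonneg _)
        _ < 1 := by rw [one_mul]; exact hp
    · rw [norm_mul]
      calc ‖(b : C)‖ * ‖(n : C)‖ ≤ 1 * ‖(n : C)‖ :=
            mul_le_mul_of_nonneg_right (norm_int_le b) (norm_nonneg _)
        _ < 1 := by rw [one_mul]; exact hc
  rw [norm_one] at h2
  exact lt_irrefl _ h2

/-- the value of an integral polynomial at an integral point -/
theorem aeval_tc {r : ℕ} (t : Fin r → ℤ) (P : MvPolynomial (Fin r) ℤ) :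
    aeval (tc t) P = ((eval t P : ℤ) : ℂ) := by
  have h := MvPolynomial.eval₂_comp_left (Int.castRingHom ℂ) (RingHom.id ℤ) t P
  rw [aeval_def]
  have e : (tc t) = (Int.castRingHom ℂ) ∘ t := rfl
  rw [e]
  have h2 : eval t P = eval₂ (RingHom.id ℤ) t P := rfl
  rw [h2]
  have h3 : ((eval₂ (RingHom.id ℤ) t P : ℤ) : ℂ) = (Int.castRingHom ℂ) (eval₂ (RingHom.id ℤ) t P) := rfl
  rw [h3, h]
  rfl

theorem cert : S_CERT := by
  intro r N β _ F D E hdis
  classical
  have hcert := fun (j : Fin (N + 1)) =>
    certP (k := QA) (fun a : Empty => (a.elim : MvPolynomial (Fin r ⊕ Fin (N + 1)) QA))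
      (fun b : Option β => Option.elim b (ipol QA D) (fun b => flat QA (F b)))
      (ipol QA E * X (Sum.inr j)) (by
        intro z _ hF
        obtain ⟨t, y, rfl⟩ : ∃ t y, z = Sum.elim t y :=
          ⟨fun a => z (Sum.inl a), fun a => z (Sum.inr a), by
            funext a
            rcases a with a | a <;> rfl⟩
        rw [map_mul, aeval_X, Sum.elim_inr, aeval_ipol]
        by_cases hE : aeval t E = 0
        · rw [hE, zero_mul]
        · have hD : aeval t D = 0 := by
            have h1 := hF none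
            simp only [Option.elim_none] at h1
            rwa [aeval_ipol] at h1
          have h2 := hdis t hD hE y (fun b => by
            have h3 := hF (some b)
            simp only [Option.elim_some] at h3
            rwa [aeval_flat] at h3)
          rw [h2, Pi.zero_apply, mul_zero])
  choose M U hU using hcert
  let W : Finset QA :=
    ((Finset.univ : Finset (Fin (N + 1) × Option β)).biUnion
      (fun q => (U q.1 q.2).support.image (fun u => (U q.1 q.2).coeff u))) ∪
    ((Finset.univ : Finset β).biUnion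
      (fun b => (flat QA (F b)).support.image (fun u => (flat QA (F b)).coeff u)))
  refine ⟨W, ?_⟩
  intro C _ _ p _ φ hp hW t hD hE y hy hy1
  have hUW : ∀ j b, ∀ u ∈ (U j b).support, rA ((U j b).coeff u) ∈ ball φ := by
    intro j b u hu
    apply hW
    apply Finset.mem_union_left
    rw [Finset.mem_biUnion]
    exact ⟨(j, b), Finset.mem_univ _, Finset.mem_image_of_mem _ hu⟩
  have hFW : ∀ b, ∀ u ∈ (flat QA (F b)).support, rA ((flat QA (F b)).coeff u) ∈ ball φ := by
    intro b u hu
    apply hW
    apply Finset.mem_union_right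
    rw [Finset.mem_biUnion]
    exact ⟨b, Finset.mem_univ _, Finset.mem_image_of_mem _ hu⟩
  have hz : ∀ i, (Sum.elim (tc t) y : Fin r ⊕ Fin (N + 1) → ℂ) i ∈ ball φ := by
    intro i
    rcases i with i | i
    · simp only [Sum.elim_inl, tc, mem_ball]
      rw [map_intCast]
      exact norm_int_le _
    · exact hy i
  have hFle : ∀ b, ‖φ (vf (tc t) y (F b))‖ ≤ 1 := by
    intro b
    have h1 := aeval_ball (flat QA (F b)) (hFW b) _ hz
    rw [aeval_flat] at h1
    exact h1
  by_contra hcon
  push Not at hcon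
  obtain ⟨j, hj⟩ := hy1
  have h1 := hU j (Sum.elim (tc t) y) (fun i => i.elim)
  rw [map_mul, aeval_X, Sum.elim_inr, aeval_ipol, aeval_tc] at h1
  have h2 := congrArg (fun z => ‖φ z‖) h1
  rw [map_pow, map_mul, norm_pow, norm_mul, map_intCast, norm_int_eq hp hE, hj, one_mul,
    one_pow, map_sum] at h2
  have h3 : ‖∑ b : Option β, φ (aeval (Sum.elim (tc t) y) (U j b) *
      aeval (Sum.elim (tc t) y) (Option.elim b (ipol QA D) (fun b => flat QA (F b))))‖ < 1 := by
    apply sum_lt
    intro b _
    rw [map_mul, norm_mul]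
    have h4 := mem_ball.1 (aeval_ball (U j b) (hUW j b) _ hz)
    have h5 : ‖φ (aeval (Sum.elim (tc t) y)
        (Option.elim b (ipol QA D) (fun b => flat QA (F b))))‖ < 1 := by
      rcases b with _ | b
      · simp only [Option.elim_none]
        rw [aeval_ipol, aeval_tc, map_intCast]
        exact norm_int_lt hp hD
      · simp only [Option.elim_some]
        rw [aeval_flat]
        exact lt_of_le_of_ne (hFle b) (hcon b)
    calc _ ≤ 1 * ‖φ (aeval (Sum.elim (tc t) y)
        (Option.elim b (ipol QA D) (fun b => flat QA (F b))))‖ :=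
          mul_le_mul_of_nonneg_right h4 (norm_nonneg _)
      _ < 1 := by rw [one_mul]; exact h5
  rw [← h2] at h3
  exact lt_irrefl _ h3

end Pool.Agent.Q208.HD
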